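import Pool.Agent.H86.FbA

namespace Pool.Agent.Results.MP_207313_an.Yes
open Pool.Agent.H86.Fb Finset Filter Topology

/-- two-dimensional `ℓ_1` -/
abbrev L1 : Type := PiLp 1 fun _ : Fin 2 => ℝ

noncomputable def vec (a b : ℝ) : L1 := WithLp.toLp 1 ![a, b]
noncomputable def pt (a b : ℝ) : StrongDual ℝ L1 :=
  a • PiLp.proj 1 (fun _ : Fin 2 => ℝ) 0 + b • PiLp.proj 1 (fun _ : Fin 2 => ℝ) 1

theorem pt_vec (a b c d : ℝ) : pt a b (vec c d) = a * c + b * d := by simp [pt, vec]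

theorem ap (t : StrongDual ℝ L1) (v : L1) : t v = v 0 * t (vec 1 0) + v 1 * t (vec 0 1) := by
  have : v = v 0 • vec 1 0 + v 1 • vec 0 1 := by ext i; fin_cases i <;> simp [vec]
  conv_lhs => rw [this]
  simp

theorem nv (v : L1) : ‖v‖ = |v 0| + |v 1| := by simp [PiLp.norm_eq_of_L1]

theorem adm {ι : Type} [Fintype ι] (x : ι → StrongDual ℝ L1) {c : ℝ}
    (h0 : ∑ i, |x i (vec 1 0)| ≤ c) (h1 : ∑ i, |x i (vec 0 1)| ≤ c) (v : L1) (hv : ‖v‖ ≤ 1) :
    ∑ i, |x i v| ≤ c := by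
  have hc : 0 ≤ c := (sum_nonneg fun _ _ => abs_nonneg _).trans h0
  rw [nv] at hv
  refine (sum_le_sum fun i _ => ((congrArg abs (ap (x i) v)).trans_le (abs_add_le _ _))).trans ?_
  simp only [abs_mul, sum_add_distrib, ← mul_sum]
  nlinarith [mul_le_mul_of_nonneg_left h0 (abs_nonneg (v 0)),
    mul_le_mul_of_nonneg_left h1 (abs_nonneg (v 1))]

theorem frame (q : StrongDual ℝ L1) (hq : q ≠ 0) : ∃ (a c : L1) (r : StrongDual ℝ L1),
    q a = 1 ∧ q c = 0 ∧ r a = 0 ∧ r c = 1 := by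
  set x := q (vec 1 0)
  set y := q (vec 0 1)
  have h : x ^ 2 + y ^ 2 ≠ 0 := fun h => hq (by
    ext v
    rw [ap, show q (vec 1 0) = 0 by nlinarith, show q (vec 0 1) = 0 by nlinarith]; simp)
  refine ⟨vec (x / (x ^ 2 + y ^ 2)) (y / (x ^ 2 + y ^ 2)), vec (-y / (x ^ 2 + y ^ 2))
    (x / (x ^ 2 + y ^ 2)), pt (-y) x, ?_, ?_, ?_, ?_⟩
  · rw [ap]; change x / _ * x + y / _ * y = 1; field_simp
  · rw [ap]; change -y / _ * x + x / _ * y = 0; ring
  · rw [pt_vec]; ring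
  · rw [pt_vec]; field_simp; ring

theorem dual (f : H L1) (hf : ‖f‖ ≤ 1) : ∃ l : ℝ, 0 ≤ l ∧ l ≤ 1 ∧
    ∀ t, |f.1 t| ≤ l * |t (vec 1 0)| + (1 - l) * |t (vec 0 1)| := by
  have two : ∀ (s t : StrongDual ℝ L1) (a b c : ℝ), 0 ≤ a → 0 ≤ b → 0 < c →
      a * |s (vec 1 0)| + b * |t (vec 1 0)| ≤ c → a * |s (vec 0 1)| + b * |t (vec 0 1)| ≤ c →
        a * |f.1 s| + b * |f.1 t| ≤ c := fun s t a b c ha hb hc h1 h2 => by
    have := sum_le f ![a • s, b • t] hc (adm _ (by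
      simpa [abs_mul, abs_of_nonneg ha, abs_of_nonneg hb] using h1) (by
      simpa [abs_mul, abs_of_nonneg ha, abs_of_nonneg hb] using h2))
    simp only [Fin.sum_univ_two, Matrix.cons_val_zero, Matrix.cons_val_one, f.2.1 _ ha, f.2.1 _ hb,
      abs_mul, abs_of_nonneg ha, abs_of_nonneg hb] at this
    nlinarith
  have v1 : |pt 1 0 (vec 1 0)| = 1 ∧ |pt 1 0 (vec 0 1)| = 0 := by simp [pt_vec]
  have v2 : |pt 0 1 (vec 1 0)| = 0 ∧ |pt 0 1 (vec 0 1)| = 1 := by simp [pt_vec]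
  obtain ⟨l, h1, h2⟩ := exists_between_of_forall_le
    (s := {x | ∃ s : StrongDual ℝ L1, |s (vec 0 1)| < |s (vec 1 0)| ∧
      x * (|s (vec 1 0)| - |s (vec 0 1)|) = |f.1 s| - |s (vec 0 1)|})
    (t := {x | ∃ s : StrongDual ℝ L1, |s (vec 1 0)| < |s (vec 0 1)| ∧
      x * (|s (vec 0 1)| - |s (vec 1 0)|) = |s (vec 0 1)| - |f.1 s|})
    ⟨|f.1 (pt 1 0)|, pt 1 0, by rw [v1.1, v1.2]; simp⟩
    ⟨1 - |f.1 (pt 0 1)|, pt 0 1, by rw [v2.1, v2.2]; simp⟩ (by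
      rintro x ⟨s, hs, hx⟩ y ⟨t, ht, hy⟩
      have a1 := sub_pos.2 hs
      have a2 := sub_pos.2 ht
      have := two s t _ _ _ a2.le a1.le (add_pos_of_nonneg_of_pos (mul_nonneg a2.le
        (abs_nonneg (s (vec 0 1)))) (mul_pos a1 ((abs_nonneg _).trans_lt ht)))
          (le_of_eq (by ring)) le_rfl
      refine le_of_mul_le_mul_right ?_ (mul_pos a1 a2)
      rw [← mul_assoc, hx, mul_comm _ (_ - _), mul_comm (|s (vec 1 0)| - _), ← mul_assoc, hy]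
      linarith)
  have key : ∀ t, |f.1 t| ≤ l * |t (vec 1 0)| + (1 - l) * |t (vec 0 1)| := fun t => by
    rcases lt_trichotomy |t (vec 0 1)| |t (vec 1 0)| with h | h | h
    · have := (div_le_iff₀ (sub_pos.2 h)).1 (h1 ⟨t, h, div_mul_cancel₀ _ (sub_pos.2 h).ne'⟩)
      linarith
    · refine le_of_forall_pos_le_add fun ε hε => ?_
      have := two t t 1 0 (|t (vec 0 1)| + ε) zero_le_one le_rfl (by positivity) (by linarith)
        (by linarith)
      rw [← h]; linarith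
    · have := (le_div_iff₀ (sub_pos.2 h)).1 (h2 ⟨t, h, div_mul_cancel₀ _ (sub_pos.2 h).ne'⟩)
      linarith
  have k1 := key (pt 1 0)
  have k2 := key (pt 0 1)
  rw [v1.1, v1.2] at k1
  rw [v2.1, v2.2] at k2
  exact ⟨l, by linarith [abs_nonneg (f.1 (pt 1 0))], by linarith [abs_nonneg (f.1 (pt 0 1))], key⟩

theorem core (φ : FBL L1 →L[ℝ] ℝ) (x y0 : FBL L1) (hy : ‖y0‖ ≤ 1) {N : ℝ}
    (hN : ∀ y : FBL L1, ‖y‖ ≤ 1 → ‖y + φ y • x‖ ≤ N) {ι : Type} [Fintype ι]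
    (q : ι → StrongDual ℝ L1) (h0 : ∑ i, |q i (vec 1 0)| = 1) (h1 : ∑ i, |q i (vec 0 1)| = 1) :
    1 + φ y0 * ∑ i, |x.1.1 (q i)| ≤ N := by
  obtain ⟨l, l0, l1, hl⟩ := dual y0.1 hy
  let d : FBL L1 := l • xabs (xd (vec 1 0)) + (1 - l) • xabs (xd (vec 0 1))
  have dv : ∀ t, d.1.1 t = l * |t (vec 1 0)| + (1 - l) * |t (vec 0 1)| := fun _ => rfl
  have dn : ‖d‖ ≤ 1 := by
    refine (norm_add_le _ _).trans ?_
    rw [norm_smul, norm_smul, Real.norm_of_nonneg l0, Real.norm_of_nonneg (sub_nonneg.2 l1)]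
    have a1 := (xd_norm (vec 1 0)).trans_eq (show _ = 1 by simp [nv, vec])
    have a2 := (xd_norm (vec 0 1)).trans_eq (show _ = 1 by simp [nv, vec])
    nlinarith [mul_le_mul_of_nonneg_left a1 l0, mul_le_mul_of_nonneg_left a2 (sub_nonneg.2 l1)]
  have N0 : 0 ≤ N := (norm_nonneg _).trans (hN 0 (by simp))
  set V := ∑ i, |x.1.1 (q i)| with hV
  have V0 : 0 ≤ V := sum_nonneg fun _ _ => abs_nonneg _
  refine le_of_forall_pos_le_add fun ε hε => ?_
  obtain ⟨η, e0, e1, e2⟩ : ∃ η : ℝ, 0 < η ∧ η ≤ 1 ∧ η * (N + V + |φ y0| + 2) ≤ ε :=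
    ⟨min 1 (ε / (N + V + |φ y0| + 2)), by positivity, min_le_left _ _,
      (le_div_iff₀ (by positivity)).1 (min_le_right _ _)⟩
  obtain ⟨δ, d0, d1⟩ : ∃ δ : ℝ, 0 < δ ∧ Fintype.card ι * δ ≤ η := ⟨η / (Fintype.card ι + 1),
    by positivity, by rw [mul_div_assoc', div_le_iff₀ (by positivity)]; linarith⟩
  let σ : ι → ℝ := fun i => if 0 ≤ x.1.1 (q i) then 1 else -1
  have σ1 : ∀ i, |σ i| = 1 := fun i => by simp only [σ]; split_ifs <;> simp
  have σ2 : ∀ i, σ i * x.1.1 (q i) = |x.1.1 (q i)| := fun i => by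
    simp only [σ]; split_ifs with h
    · rw [one_mul, abs_of_nonneg h]
    · rw [neg_one_mul, abs_of_neg (not_le.1 h)]
  have nb : ∀ {f : StrongDual ℝ L1 → ℝ}, Continuous f → ∀ i, {t | |f t - f (q i)| ≤ δ} ∈ 𝓝 (q i) :=
    fun hf i => (((hf.tendsto (q i)).sub_const _).abs.eventually_le_const (by simpa using d0))
  obtain ⟨y, p, k1, k2, k3⟩ := steps frame φ d y0 hl q σ (fun i => (σ1 i).le) _ (fun i =>
    inter_mem (nb (f := fun t => σ i * x.1.1 t) (continuous_const.mul (xcont x)) i)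
      (inter_mem (nb (f := fun t => |t (vec 1 0)|) (by fun_prop) i)
        (nb (f := fun t => |t (vec 0 1)|) (by fun_prop) i))) d0 univ
  have sm : ∀ (a b : ι → ℝ), (∀ i, |a i - b i| ≤ δ) → |∑ i, a i - ∑ i, b i| ≤ η := fun a b h => by
    rw [← sum_sub_distrib]
    refine (abs_sum_le_sum_abs _ _).trans ((sum_le_sum fun i _ => h i).trans ?_)
    simpa using d1
  have s1 := sm _ _ fun i => (k3 i (mem_univ i)).1.1
  have s2 := abs_le.1 (sm _ _ fun i => (k3 i (mem_univ i)).1.2.1)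
  have s3 := abs_le.1 (sm _ _ fun i => (k3 i (mem_univ i)).1.2.2)
  simp only [σ2, ← hV] at s1
  rw [h0] at s2
  rw [h1] at s3
  have s4 := (sum_le (y + φ y • x).1 p (c := 1 + η) (by positivity) (adm _ (by linarith)
    (by linarith))).trans (mul_le_mul_of_nonneg_left (hN y ((norm_mono fun t =>
      (k1 t).trans (le_abs_self _)).trans dn)) (by positivity))
  have s5 : ∑ i, (l * |p i (vec 1 0)| + (1 - l) * |p i (vec 0 1)| + φ y * (σ i * x.1.1 (p i))) ≤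
      ∑ i, |(y + φ y • x).1.1 (p i)| := sum_le_sum fun i _ => by
    change _ ≤ |y.1.1 (p i) + φ y * x.1.1 (p i)|
    have a1 := abs_mul (σ i) (y.1.1 (p i) + φ y * x.1.1 (p i))
    have a2 := abs_mul_abs_self (σ i)
    rw [σ1, one_mul] at a1 a2
    rw [← a1, (k3 i (mem_univ i)).2, mul_add, ← mul_assoc (σ i) (σ i), ← a2, dv]
    exact le_trans (le_of_eq (by ring)) (le_abs_self _)
  simp only [sum_add_distrib, ← mul_sum] at s5
  have k2' : |φ y - φ y0| ≤ η := k2.trans (by simpa using d1)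
  set v := ∑ i, σ i * x.1.1 (p i)
  have b1 := abs_le.1 ((abs_mul _ _).trans_le (mul_le_mul k2' s1 (abs_nonneg _) e0.le))
  have b2 := abs_le.1 ((abs_mul _ _).trans_le (mul_le_mul k2' (abs_of_nonneg V0).le
    (abs_nonneg _) e0.le))
  have b3 := abs_le.1 ((abs_mul (φ y0) _).trans_le (mul_le_mul_of_nonneg_left s1 (abs_nonneg _)))
  nlinarith [mul_le_mul_of_nonneg_left s2.1 l0, mul_le_mul_of_nonneg_left s3.1 (sub_nonneg.2 l1),
    mul_le_of_le_one_left e0.le e1]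

theorem result : Daugavet (FBL L1) := by
  intro T hT
  obtain ⟨⟨x, x1⟩, x0, hx⟩ := finrank_eq_one_iff'.1 hT
  have x0' : x ≠ 0 := fun h => x0 (Subtype.ext h)
  obtain ⟨ψ, -, hψ⟩ := exists_dual_vector ℝ x (norm_ne_zero_iff.2 x0')
  have xp := norm_pos_iff.2 x0'
  let φ : FBL L1 →L[ℝ] ℝ := ‖x‖⁻¹ • ψ.comp T
  have hφ : ∀ y, T y = φ y • x := fun y => by
    obtain ⟨c, hc⟩ := hx ⟨T y, y, rfl⟩
    have hc' : c • x = T y := congrArg Subtype.val hc
    change _ = (‖x‖⁻¹ * ψ (T y)) • x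
    rw [← hc', map_smul, hψ, smul_eq_mul]
    congr 1
    change c = ‖x‖⁻¹ * (c * ‖x‖)
    field_simp
  refine le_antisymm ((ContinuousLinearMap.opNorm_add_le _ _).trans
    (add_le_add ContinuousLinearMap.norm_id_le le_rfl)) ?_
  set N := ‖ContinuousLinearMap.id ℝ (FBL L1) + T‖
  have hN : ∀ y : FBL L1, ‖y‖ ≤ 1 → ‖y + φ y • x‖ ≤ N := fun y hy => by
    rw [← hφ]; exact (ContinuousLinearMap.id ℝ (FBL L1) + T).unit_le_opNorm y hy
  have k1 : ∀ y : FBL L1, ‖y‖ ≤ 1 → 0 ≤ φ y → φ y * ‖x‖ ≤ N - 1 := fun y hy h0 => by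
    have : ∀ s ∈ vals L1 x.1.1, φ y * s ≤ N - 1 := by
      rintro _ ⟨m, q, hq, rfl⟩
      have a1 := hq (vec 1 0) (by simp [nv, vec])
      have a2 := hq (vec 0 1) (by simp [nv, vec])
      have := core φ x y hy hN (ι := Option (Fin m)) (fun o => o.elim
        (pt (1 - ∑ i, |q i (vec 1 0)|) (1 - ∑ i, |q i (vec 0 1)|)) q)
        (by simp [pt_vec, abs_of_nonneg (sub_nonneg.2 a1)])
        (by simp [pt_vec, abs_of_nonneg (sub_nonneg.2 a2)])
      simp only [Fintype.sum_option, Option.elim] at this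
      nlinarith [mul_nonneg h0 (abs_nonneg (x.1.1 (pt (1 - ∑ i, |q i (vec 1 0)|)
        (1 - ∑ i, |q i (vec 0 1)|))))]
    rcases eq_or_lt_of_le h0 with h | h
    · simpa [← h] using this 0 (vals_zero _ _)
    · rw [← le_div_iff₀' h]
      exact csSup_le ⟨_, vals_zero _ _⟩ fun s hs => (le_div_iff₀' h).2 (this s hs)
  rw [← le_sub_iff_add_le']
  refine ContinuousLinearMap.opNorm_le_of_unit_norm (by simpa using k1 0 (by simp) (by simp))
    fun y hy => ?_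
  rw [hφ, norm_smul, Real.norm_eq_abs]
  rcases le_total 0 (φ y) with h | h
  · rw [abs_of_nonneg h]; exact k1 y hy.le h
  · rw [abs_of_nonpos h, ← map_neg]
    exact k1 (-y) (by rw [norm_neg, hy]) (by rw [map_neg]; linarith)

end Pool.Agent.Results.MP_207313_an.Yes
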